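import Mathlib

/-!
# MP_9f84a9_co (Gilbert-Pollak): definitions

Paper proof: team-store file `MP_9f84a9_proof.md`.
-/

set_option autoImplicit false

namespace Pool.Agent.Lib.MP_9f84a9_co

open Finset

/-- the plane -/
abbrev E := EuclideanSpace ℝ (Fin 2)

/-- twice the signed area of the triangle `u v w` -/
def ar (u v w : E) : ℝ := (v 0 - u 0) * (w 1 - u 1) - (v 1 - u 1) * (w 0 - u 0)

/-- rotation by 90 degrees -/
noncomputable def rot (v : E) : E := !₂[- v 1, v 0]

/-! ## Points, complexes, chain metrics -/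

/-- barycentric points on vertex names `Fin N` -/
abbrev Pt (N : ℕ) := Fin N → ℝ

/-- a complex is given by its set of facets -/
abbrev Cx (N : ℕ) := Finset (Finset (Fin N))

/-- the vertex `v` as a point -/
def vx {N : ℕ} (v : Fin N) : Pt N := Pi.single v 1

/-- position of a point -/
noncomputable def pos {N : ℕ} (p : Fin N → E) (x : Pt N) : E := ∑ v, x v • p v

/-- `x` is supported in `f` -/
def Sup {N : ℕ} (x : Pt N) (f : Finset (Fin N)) : Prop := ∀ v, v ∉ f → x v = 0

/-- `x` is a point of the complex `K` -/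
def In {N : ℕ} (K : Cx N) (x : Pt N) : Prop :=
  (∀ v, 0 ≤ x v) ∧ ∑ v, x v = 1 ∧ ∃ f ∈ K, Sup x f

/-- `x` and `y` are points of a common facet of `K` -/
def Stp {N : ℕ} (K : Cx N) (x y : Pt N) : Prop :=
  In K x ∧ In K y ∧ ∃ f ∈ K, Sup x f ∧ Sup y f

/-- chains in `K`: start, end, number of steps, length with respect to the step cost `c` -/
inductive Path {N : ℕ} (K : Cx N) (c : Pt N → Pt N → ℝ) : Pt N → Pt N → ℕ → ℝ → Prop
  | nil (x : Pt N) : In K x → Path K c x x 0 0
  | cons (x y z : Pt N) (k : ℕ) (r : ℝ) : Stp K x y → Path K c y z k r →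
      Path K c x z (k + 1) (c x y + r)

/-- the chain (pseudo)metric -/
noncomputable def dK {N : ℕ} (K : Cx N) (c : Pt N → Pt N → ℝ) (x y : Pt N) : ℝ :=
  sInf {r : ℝ | ∃ k, Path K c x y k r}

/-- Euclidean step cost -/
noncomputable def ce {N : ℕ} (p : Fin N → E) (x y : Pt N) : ℝ := dist (pos p x) (pos p y)

/-- `K` is connected -/
def Cn {N : ℕ} (K : Cx N) : Prop :=
  ∀ (c : Pt N → Pt N → ℝ) (x y : Pt N), In K x → In K y → ∃ k r, Path K c x y k r

/-- a pseudometric cost -/
structure IsCost {N : ℕ} (c : Pt N → Pt N → ℝ) : Prop where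
  nonneg : ∀ x y, 0 ≤ c x y
  self : ∀ x, c x x = 0
  symm : ∀ x y, c x y = c y x
  tri : ∀ x y z, c x z ≤ c x y + c y z

/-! ## Triangulated polygons -/

/-- triangulated polygon on the left of a directed edge `(a,b)`: `node w l r` is the triangle `(a,b,w)` with `l` over
`(a,w)` and `r` over `(w,b)` -/
inductive PT (N : ℕ) : Type
  | nil : PT N
  | node (w : Fin N) (l r : PT N) : PT N

namespace PT
variable {N : ℕ}

/-- the vertices of the polygon different from `a,b` -/
def vs : PT N → List (Fin N)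
  | nil => []
  | node w l r => w :: (l.vs ++ r.vs)

/-- the triangles -/
def fac : Fin N → Fin N → PT N → Cx N
  | _, _, nil => ∅
  | a, b, node w l r => insert {a, b, w} (fac a w l ∪ fac w b r)

/-- all triangles weakly positively oriented -/
def WPos (p : Fin N → E) : Fin N → Fin N → PT N → Prop
  | _, _, nil => True
  | a, b, node w l r => 0 ≤ ar (p a) (p b) (p w) ∧ WPos p a w l ∧ WPos p w b r

/-- all triangles positively oriented -/
def SPos (p : Fin N → E) : Fin N → Fin N → PT N → Prop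
  | _, _, nil => True
  | a, b, node w l r => 0 < ar (p a) (p b) (p w) ∧ SPos p a w l ∧ SPos p w b r

/-- the Delaunay functional -/
noncomputable def I (p : Fin N → E) : Fin N → Fin N → PT N → ℝ
  | _, _, nil => 0
  | a, b, node w l r =>
      ar (p a) (p b) (p w) * (‖p a‖ ^ 2 + ‖p b‖ ^ 2 + ‖p w‖ ^ 2) + I p a w l + I p w b r

/-- sum of the squared lengths of the edges other than `(a,b)` -/
noncomputable def Q (p : Fin N → E) : Fin N → Fin N → PT N → ℝ
  | _, _, nil => 0
  | a, b, node w l r => dist (p a) (p w) ^ 2 + dist (p w) (p b) ^ 2 + Q p a w l + Q p w b r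

end PT

/-- a triangulated polygon with a chosen centre edge `(a,b)`: `P` over `(a,b)`, `R` over `(b,a)` -/
structure Dsc (N : ℕ) : Type where
  a : Fin N
  b : Fin N
  P : PT N
  R : PT N

namespace Dsc
variable {N : ℕ}

/-- list of vertices -/
def vl (D : Dsc N) : List (Fin N) := D.a :: D.b :: (D.P.vs ++ D.R.vs)

/-- all vertices distinct -/
def ok (D : Dsc N) : Prop := D.vl.Nodup

open Classical in
/-- facets: the triangles, or the edge `{a,b}` if there are no triangles -/
noncomputable def K (D : Dsc N) : Cx N :=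
  if D.P = PT.nil ∧ D.R = PT.nil then {{D.a, D.b}} else D.P.fac D.a D.b ∪ D.R.fac D.b D.a

def WPos (p : Fin N → E) (D : Dsc N) : Prop := D.P.WPos p D.a D.b ∧ D.R.WPos p D.b D.a
def SPos (p : Fin N → E) (D : Dsc N) : Prop := D.P.SPos p D.a D.b ∧ D.R.SPos p D.b D.a
noncomputable def I (p : Fin N → E) (D : Dsc N) : ℝ := D.P.I p D.a D.b + D.R.I p D.b D.a
noncomputable def Q (p : Fin N → E) (D : Dsc N) : ℝ :=
  dist (p D.a) (p D.b) ^ 2 + D.P.Q p D.a D.b + D.R.Q p D.b D.a

/-- moving the centre edge -/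
inductive Mv : Dsc N → Dsc N → Prop
  | sw (a b : Fin N) (P R : PT N) : Mv ⟨a, b, P, R⟩ ⟨b, a, R, P⟩
  | lf (a b w : Fin N) (l r R : PT N) : Mv ⟨a, b, PT.node w l r, R⟩ ⟨a, w, l, PT.node b r R⟩
  | rt (a b w : Fin N) (l r R : PT N) : Mv ⟨a, b, PT.node w l r, R⟩ ⟨w, b, r, PT.node a R l⟩

/-- same polygon, another centre edge -/
def Eqv (D D' : Dsc N) : Prop := Relation.ReflTransGen Mv D D'

end Dsc

/-! ## Networks -/

/-- rooted binary network with leaves at vertices and nodes at points -/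
inductive Net (N : ℕ) : Type
  | leaf (v : Fin N) : Net N
  | node (z : Pt N) (l r : Net N) : Net N

namespace Net
variable {N : ℕ}

def top : Net N → Pt N
  | leaf v => vx v
  | node z _ _ => z

def leaves : Net N → List (Fin N)
  | leaf v => [v]
  | node _ l r => l.leaves ++ r.leaves

def nodes : Net N → List (Pt N)
  | leaf _ => []
  | node z l r => z :: (l.nodes ++ r.nodes)

def fl : Net N → Fin N
  | leaf v => v
  | node _ l _ => l.fl

def len (d : Pt N → Pt N → ℝ) : Net N → ℝ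
  | leaf _ => 0
  | node z l r => d z l.top + d z r.top + l.len d + r.len d

/-- moving the centre edge of an unrooted network `(A,B)` -/
inductive Mv : Net N × Net N → Net N × Net N → Prop
  | sw (A B : Net N) : Mv (A, B) (B, A)
  | lf (z : Pt N) (l r B : Net N) : Mv (node z l r, B) (l, node z r B)
  | rt (z : Pt N) (l r B : Net N) : Mv (node z l r, B) (r, node z l B)

def Eqv (T T' : Net N × Net N) : Prop := Relation.ReflTransGen Mv T T'

/-- length of the unrooted network `(A,B)` -/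
def tlen (d : Pt N → Pt N → ℝ) (T : Net N × Net N) : ℝ :=
  d T.1.top T.2.top + T.1.len d + T.2.len d

end Net

/-! ## Pieces and configurations -/

structure Piece (N : ℕ) : Type where
  D : Dsc N
  p : Fin N → E
  lab : Fin N → ℕ
  T : Net N × Net N

namespace Piece
variable {N : ℕ}

/-- intrinsic distance -/
noncomputable def d (q : Piece N) (x y : Pt N) : ℝ := dK q.D.K (ce q.p) x y
/-- length of the network -/
noncomputable def L (q : Piece N) : ℝ := Net.tlen q.d q.T
/-- list of leaves -/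
def lv (q : Piece N) : List (Fin N) := q.T.1.leaves ++ q.T.2.leaves
/-- list of nodes -/
def nd (q : Piece N) : List (Pt N) := q.T.1.nodes ++ q.T.2.nodes
/-- the root leaf -/
def root (q : Piece N) : Fin N := q.T.1.fl

/-- admissible piece, labels in `Cl`, diameter `≤ P` -/
structure ok (Cl : Finset ℕ) (P : ℝ) (q : Piece N) : Prop where
  dok : q.D.ok
  wpos : q.D.WPos q.p
  labs : ∀ v, q.lab v ∈ Cl
  nods : ∀ z ∈ q.nd, In q.D.K z
  lvs : ∀ v ∈ q.lv, v ∈ q.D.vl
  diam : ∀ v ∈ q.D.vl, ∀ w ∈ q.D.vl, dist (q.p v) (q.p w) ≤ P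

end Piece

/-- configurations -/
abbrev Cfg (N : ℕ) := List (Piece N)

section cfg
variable {N : ℕ}

/-- the classes `a` and `b` are both classes of leaves of one piece -/
def Hst (S : Cfg N) (a b : ℕ) : Prop := ∃ q ∈ S, a ∈ q.lv.map q.lab ∧ b ∈ q.lv.map q.lab

/-- joined by hyperedges -/
def HJ (S : Cfg N) (a b : ℕ) : Prop := Relation.ReflTransGen (Hst S) a b

/-- a chord of length at most `r` between the classes `a` and `b` is available -/
def Ch (S : Cfg N) (a b : ℕ) (r : ℝ) : Prop :=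
  ∃ q ∈ S, ∃ v ∈ q.D.vl, ∃ w ∈ q.D.vl, q.lab v = a ∧ q.lab w = b ∧ q.d (vx v) (vx w) ≤ r

/-- the list of weighted pairs joins all classes -/
def Joins (Cl : Finset ℕ) (l : List (ℕ × ℕ × ℝ)) : Prop :=
  ∀ a ∈ Cl, ∀ b ∈ Cl,
    Relation.ReflTransGen (fun x y => ∃ r, (x, y, r) ∈ l ∨ (y, x, r) ∈ l) a b

/-- every spanning set of chords has length `≥ M` -/
def MSTge (Cl : Finset ℕ) (S : Cfg N) (M : ℝ) : Prop :=
  ∀ l : List (ℕ × ℕ × ℝ), (∀ t ∈ l, Ch S t.1 t.2.1 t.2.2) → Joins Cl l → M ≤ (l.map (·.2.2)).sum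

/-- total length -/
noncomputable def Lc (S : Cfg N) : ℝ := (S.map Piece.L).sum

/-- complexity -/
def mu (S : Cfg N) : ℕ := (S.map fun q => (q.lv.length - 1) ^ 2 * (q.D.vl.length - 1)).sum

noncomputable def phi (R1 r : ℝ) : ℝ := if r ≤ R1 then r ^ 2 else R1 ^ 2 - (r - R1)

noncomputable def Piece.Phi (R1 : ℝ) (q : Piece N) : ℝ :=
  (q.D.vl.map fun v => phi R1 (dist (q.p v) (q.p q.root))).sum +
    (q.nd.map fun z => dist (pos q.p z) (q.p q.root) ^ 2).sum

noncomputable def Phi (R1 : ℝ) (S : Cfg N) : ℝ := (S.map (Piece.Phi R1)).sum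
/-- Delaunay functional, positions relative to the root -/
noncomputable def Ic (S : Cfg N) : ℝ := (S.map fun q => q.D.I (fun v => q.p v - q.p q.root)).sum
noncomputable def Qc (S : Cfg N) : ℝ := (S.map fun q => q.D.Q q.p).sum

/-- admissible configurations with classes `Cl` (names in `Fin N`, diameters `≤ P`) and MST `≥ 1` -/
structure InD (Cl : Finset ℕ) (P : ℝ) (S : Cfg N) : Prop where
  ok : ∀ q ∈ S, q.ok Cl P
  conn : ∀ a ∈ Cl, ∀ b ∈ Cl, HJ S a b
  cnt : (S.map fun q => q.lv.length - 1).sum + 1 ≤ Cl.card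
  mst : MSTge Cl S 1

/-- lexicographically optimal configurations -/
structure Opt (Cl : Finset ℕ) (P R1 : ℝ) (S : Cfg N) : Prop where
  mem : InD Cl P S
  o1 : ∀ S' : Cfg N, InD Cl P S' → Lc S ≤ Lc S'
  o2 : ∀ S' : Cfg N, InD Cl P S' → Lc S' ≤ Lc S → mu S ≤ mu S'
  o3 : ∀ S' : Cfg N, InD Cl P S' → Lc S' ≤ Lc S → mu S' ≤ mu S → Phi R1 S' ≤ Phi R1 S
  o4 : ∀ S' : Cfg N, InD Cl P S' → Lc S' ≤ Lc S → mu S' ≤ mu S → Phi R1 S ≤ Phi R1 S' →
    Ic S ≤ Ic S'
  o5 : ∀ S' : Cfg N, InD Cl P S' → Lc S' ≤ Lc S → mu S' ≤ mu S → Phi R1 S ≤ Phi R1 S' →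
    Ic S' ≤ Ic S → Qc S ≤ Qc S'

end cfg

/-- Theorem Y for class sets of cardinality `n` (normalised) -/
def ThmY (n : ℕ) : Prop :=
  ∀ (N : ℕ) (Cl : Finset ℕ) (P : ℝ) (S : Cfg N), Cl.card = n → InD Cl P S → Real.sqrt 3 / 2 ≤ Lc S

end Pool.Agent.Lib.MP_9f84a9_co
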