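import Pool.Agent.Lib.MP_9f84a9_co.Out

/-!
# MP_9f84a9_co, module X: shared facts on symbolic networks and nets.  Statements with proofs in the docstrings.
-/

set_option autoImplicit false

namespace Pool.Agent.Lib.MP_9f84a9_co

open Finset

/-- the point of a vertex or node index -/
def ipt {N k : ℕ} (y : Dat N k) : Fin N ⊕ Fin k → Pt N := Sum.elim vx y.2

/-- [X1] Symbolic representation of an arbitrary configuration.
PROOF. For a net `A` and a list of at least `A.nodes.length` distinct names there is a symbolic net using the first `A.nodes.length` names in order (`names = ` that initial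
segment) and, for any `z` taking the prescribed values at these names, `real z` gives back `A` (induction on `A`, splitting the list of names). For a piece use the names
`0, 1, ..., nd.length - 1 < k` (`List.finRange k`), first for `T.1`, then for `T.2`; other names get the value `0`. `S = List.ofFn (fun j => S.get j)`. -/
def S_X1 : Prop :=
  ∀ (N k : ℕ) (S : Cfg N), (∀ q ∈ S, q.nd.length ≤ k) →
    ∃ (t : Fin S.length → SP N k) (y : Fin S.length → Dat N k),
      (∀ j, (t j).names.Nodup) ∧ S = mk t y ∧
      ∀ j, (t j).D = (S.get j).D ∧ (t j).lab = (S.get j).lab ∧ (y j).1 = (S.get j).p ∧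
        (t j).real (y j) = S.get j

/-- [X2] Facts on the edges of a symbolic piece.
PROOF. All by induction on symbolic nets. (1) `tlen` of the realisation is the sum over the edges. (2) nodes of the realisation. (3) leaves. (4),(5) counts: for a net
`edges.length + 2 = 2 * leaves.length`, `names.length + 1 = leaves.length`. (6) every edge can be made the centre: prove for nets `A`, any `B`: each edge `e` of `A.edges`:
`∃ T' ~ (A.real, B)` with `T'.1.top = ipt e.1`, `T'.2.top = ipt e.2` (go down with `lf`/`rt`; at the top edge `(i, l.top)` of `node i l r`: `lf` gives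
`(l, node z r B)`, then `sw`). (7) ends of edges are leaves or names. -/
def S_X2 : Prop :=
  ∀ (N k : ℕ) (t : SP N k) (y : Dat N k),
    (t.real y).L = (t.edges.map fun e => (t.real y).d (ipt y e.1) (ipt y e.2)).sum ∧
    (t.real y).nd = t.names.map y.2 ∧
    (t.real y).lv = t.T.1.leaves ++ t.T.2.leaves ∧
    t.edges.length + 3 = 2 * (t.real y).lv.length ∧
    t.names.length + 2 = (t.real y).lv.length ∧
    (∀ e ∈ t.edges, ∃ T', Net.Eqv (t.real y).T T' ∧ T'.1.top = ipt y e.1 ∧
      T'.2.top = ipt y e.2) ∧
    (∀ e ∈ t.edges, (∀ v, e.1 = Sum.inl v → v ∈ (t.real y).lv) ∧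
      (∀ v, e.2 = Sum.inl v → v ∈ (t.real y).lv) ∧ (∀ i, e.1 = Sum.inr i → i ∈ t.names) ∧
      (∀ i, e.2 = Sum.inr i → i ∈ t.names)) ∧
    (∀ v ∈ (t.real y).lv, ∃ e ∈ t.edges, e.1 = Sum.inl v ∨ e.2 = Sum.inl v)

/-- [X3] Invariance of nets under moving the centre edge.
PROOF. Cases on `Mv` for one step, induction on `ReflTransGen`. Symmetry: a step `(node z l r, B) → (l, node z r B)` is undone by
`sw`: `(node z r B, l)`, `rt`: `(B, node z r l)`, then a node with children in the other order: to avoid swapping children use: from `(node z r B, l)` the move `rt` gives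
`(B, node z r l)`, `sw` `(node z r l, B)`, `rt`: `(l, node z r B)`... the children order may stay swapped; therefore symmetry is NOT claimed; only the listed
invariants are. -/
def S_X3 : Prop :=
  ∀ (N : ℕ) (T T' : Net N × Net N), Net.Eqv T T' →
    (T.1.leaves ++ T.2.leaves).Perm (T'.1.leaves ++ T'.2.leaves) ∧
    (T.1.nodes ++ T.2.nodes).Perm (T'.1.nodes ++ T'.2.nodes) ∧
    (∀ d : Pt N → Pt N → ℝ, (∀ x y, d x y = d y x) → Net.tlen d T = Net.tlen d T') ∧
    (∀ z ∈ T.1.nodes ++ T.2.nodes, ∃ T'' , Net.Eqv T T'' ∧ T''.1.top = z ∧ ∃ l r, T''.1 = Net.node z l r) ∧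
    (∀ v ∈ T.1.leaves ++ T.2.leaves, ∃ T'', Net.Eqv T T'' ∧ T''.1 = Net.leaf v)

/-- [X4] Linear algebra: common kernel vectors and joint surjectivity.
PROOF. The map `φ : V → (Fin t → ℝ)`, `V` finite-dimensional. (1) `finrank V > t`: not injective (`LinearMap.exists_ne_zero...`, `LinearMap.finrank_range_add_finrank_ker`). (2)
injective and `finrank V ≥ t`: `finrank range = finrank V ≥ t`, so the range is everything. -/
def S_X4 : Prop :=
  ∀ (V : Type) [AddCommGroup V] [Module ℝ V] [Module.Finite ℝ V] (t : ℕ) (φ : Fin t → V →ₗ[ℝ] ℝ),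
    (t < Module.finrank ℝ V → ∃ v : V, v ≠ 0 ∧ ∀ i, φ i v = 0) ∧
    (t ≤ Module.finrank ℝ V → (∀ v : V, (∀ i, φ i v = 0) → v = 0) → ∀ r : Fin t → ℝ,
      ∃ v : V, ∀ i, φ i v = r i)

end Pool.Agent.Lib.MP_9f84a9_co
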