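import Pool.Agent.Lib.MP_9f84a9_co.Defs

/-!
# MP_9f84a9_co, module A: chain metrics.  Statements with complete proofs in the docstrings.
-/

set_option autoImplicit false

namespace Pool.Agent.Lib.MP_9f84a9_co

open Finset Filter Topology

/-- [A1] Basic facts on `In`, `Stp`, `ce`, `dist` as costs, `pos`.
PROOF. (1),(2): `dist` properties. (3) `Stp` symmetric. (4) both ends are in `K`. (5) `vx v` is nonneg, sums to 1 (`Finset.sum_pi_single'`),
supported in `f ∋ v`. (6) `∑ u, (Pi.single v 1 : _) u • p u = p v`. (7) a convex combination of two points of a common facet is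
in the same facet. (8) `pos` is linear: `pos p ((1-t) • x + t • y) = (1-t) • pos p x + t • pos p y`. (9) if `∀ v, dist (p v) (p' v) ≤ ε`
and `x ≥ 0`, `∑ x = 1` then `dist (pos p x) (pos p' x) ≤ ε`: the difference is `∑ x v • (p v - p' v)`. -/
def S_A1 : Prop :=
  ∀ (N : ℕ),
    (∀ p : Fin N → E, IsCost (ce p)) ∧
    (IsCost (fun x y : Pt N => dist x y)) ∧
    (∀ (K : Cx N) (x y : Pt N), Stp K x y → Stp K y x) ∧
    (∀ (K : Cx N) (x y : Pt N), Stp K x y → In K x ∧ In K y) ∧
    (∀ (K : Cx N) (f : Finset (Fin N)) (v : Fin N), f ∈ K → v ∈ f → In K (vx v) ∧ Sup (vx v) f) ∧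
    (∀ (p : Fin N → E) (v : Fin N), pos p (vx v) = p v) ∧
    (∀ (f : Finset (Fin N)) (x y : Pt N) (t : ℝ), (∀ v, 0 ≤ x v) → ∑ v, x v = 1 → Sup x f →
      (∀ v, 0 ≤ y v) → ∑ v, y v = 1 → Sup y f → 0 ≤ t → t ≤ 1 →
      (∀ v, 0 ≤ ((1 - t) • x + t • y) v) ∧ ∑ v, ((1 - t) • x + t • y) v = 1 ∧
        Sup ((1 - t) • x + t • y) f) ∧
    (∀ (p : Fin N → E) (x y : Pt N) (t : ℝ),
      pos p ((1 - t) • x + t • y) = (1 - t) • pos p x + t • pos p y) ∧
    (∀ (p p' : Fin N → E) (x : Pt N) (ε : ℝ), (∀ v, dist (p v) (p' v) ≤ ε) → (∀ v, 0 ≤ x v) →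
      ∑ v, x v = 1 → dist (pos p x) (pos p' x) ≤ ε)

/-- [A2] `dK` is a pseudometric on the points of a connected complex.
PROOF. Path lengths are `≥ 0` (induction), so the sets are bounded below by 0 (for (1),(3) also if empty: `sInf ∅ = 0`).
(2) the path `nil`. (3) paths can be appended and reversed (induction; use a lemma `Path x y k r → Path y z k' r' → Path x z (k+k') (r+r')`, and
reversal via append of a single step, `IsCost.symm`). (4) given `ε > 0` choose paths of length `< dK x y + ε` (the sets are nonempty by `Cn`), append. (5) the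
one-step path `cons x y y 0 0`: length `c x y + 0`. -/
def S_A2 : Prop :=
  ∀ (N : ℕ) (K : Cx N) (c : Pt N → Pt N → ℝ), IsCost c → Cn K →
    (∀ x y, 0 ≤ dK K c x y) ∧
    (∀ x, In K x → dK K c x x = 0) ∧
    (∀ x y, dK K c x y = dK K c y x) ∧
    (∀ x y z, In K x → In K y → In K z → dK K c x z ≤ dK K c x y + dK K c y z) ∧
    (∀ x y, Stp K x y → dK K c x y ≤ c x y)

/-- [A3] Lower bounds for `dK` from one-step inequalities (the universal Lipschitz lemma).
PROOF. By induction on a path: `ρ x y ≤ r` for every `Path K c x y k r`; all intermediate points are in `K`. Then `le_csInf` (nonempty by `Cn`). -/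
def S_A3 : Prop :=
  ∀ (N : ℕ) (K : Cx N) (c ρ : Pt N → Pt N → ℝ), Cn K →
    (∀ x, In K x → ρ x x ≤ 0) →
    (∀ x y z, In K x → In K y → In K z → ρ x z ≤ ρ x y + ρ y z) →
    (∀ x y, Stp K x y → ρ x y ≤ c x y) →
    ∀ x y, In K x → In K y → ρ x y ≤ dK K c x y

/-- [A4] Short paths: at most as many steps as facets.
PROOF. Use A2 (5)-type shortcuts: attach to every step a facet containing both ends. Strong induction on the number `k` of steps. If `k > K.card`, two
steps `i < j` use the same facet `f` (pigeonhole), so the start `x_i` of step `i` and the end `x_{j+1}` of step `j` are both supported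
in `f`; replace the steps `i..j` by one step `x_i → x_{j+1}`, of cost at most the sum of the replaced ones by the triangle inequality. It is convenient to work with
sequences: `Path K c x y k r` iff there are `u : ℕ → Pt N`, `u 0 = x`, `u k = y`, `∀ i < k, Stp K (u i) (u (i+1))`,
`r = ∑ i ∈ range k, c (u i) (u (i+1))`, and `In K x` (prove this first; it is (1)). -/
def S_A4 : Prop :=
  ∀ (N : ℕ) (K : Cx N) (c : Pt N → Pt N → ℝ), IsCost c →
    (∀ (x y : Pt N) (k : ℕ) (r : ℝ), Path K c x y k r ↔
      In K x ∧ ∃ u : ℕ → Pt N, u 0 = x ∧ u k = y ∧ (∀ i < k, Stp K (u i) (u (i + 1))) ∧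
        r = ∑ i ∈ range k, c (u i) (u (i + 1))) ∧
    (∀ (x y : Pt N) (k : ℕ) (r : ℝ), Path K c x y k r →
      ∃ k' ≤ K.card, ∃ r' ≤ r, Path K c x y k' r')

/-- [A5] Change of the positions.
PROOF. By A4 only paths with at most `K.card` steps matter: for `ε' > 0` take a path for `p` with length `< dK + ε'` and `≤ K.card` steps; the same
points form a path for `p'` (use the sequence form A4 (1)); each step cost changes by at most `2 ε` (A1 (9)). Symmetric. If `x` or `y` is not in `K` both sides
are `sInf ∅ = 0`... (not needed: we assume `In`). -/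
def S_A5 : Prop :=
  ∀ (N : ℕ) (K : Cx N) (p p' : Fin N → E) (ε : ℝ), Cn K → (∀ v, dist (p v) (p' v) ≤ ε) →
    ∀ x y, In K x → In K y →
      |dK K (ce p) x y - dK K (ce p') x y| ≤ 2 * K.card * ε

/-- [A6] The infimum is attained, with a minimal number of steps.
PROOF. The set of `u : Fin (k+1) → Pt N` with `u 0 = x`, `u k = y`, consecutive points in a common facet, is closed and bounded (coordinates in `[0,1]`; for
fixed choice of facets `Fin k → K` it is compact), the length is continuous, so for each `k` the minimum over paths with exactly `k` steps is attained if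
there is one. By A4 the infimum of all is the minimum over `k ≤ K.card`. Then take the least `k` for which a path of length `dK` with `k` steps exists
(`Nat.find`). -/
def S_A6 : Prop :=
  ∀ (N : ℕ) (K : Cx N) (p : Fin N → E), Cn K → ∀ x y, In K x → In K y →
    ∃ k, Path K (ce p) x y k (dK K (ce p) x y) ∧ ∀ k' < k, ¬ Path K (ce p) x y k' (dK K (ce p) x y)

/-- [A7] Joint continuity of the chain metric.
PROOF. If `xf i → x` with `In K (xf i)` and `In K x` then eventually the support of `x` is contained in the support of `xf i`, so a facet containing the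
support of `xf i` contains that of `x`: `Stp K (xf i) x`, hence `dK K (ce (pf i)) (xf i) x ≤ dist (pos (pf i) (xf i)) (pos (pf i) x) → 0` (A2 (5); `pos` is
jointly continuous). Same for `y`. With the triangle inequality `|dK_(pf i) (xf i) (yf i) - dK_(pf i) x y| → 0`; and `|dK_(pf i) x y - dK_p x y| → 0` by A5
with `ε = sup_v dist (pf i v) (p v) → 0`. -/
def S_A7 : Prop :=
  ∀ (N : ℕ) (K : Cx N) (ι : Type) (l : Filter ι) (pf : ι → Fin N → E) (p : Fin N → E)
    (xf yf : ι → Pt N) (x y : Pt N), Cn K → Tendsto pf l (𝓝 p) → Tendsto xf l (𝓝 x) →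
    Tendsto yf l (𝓝 y) → (∀ᶠ i in l, In K (xf i)) → (∀ᶠ i in l, In K (yf i)) → In K x → In K y →
    Tendsto (fun i => dK K (ce (pf i)) (xf i) (yf i)) l (𝓝 (dK K (ce p) x y))

end Pool.Agent.Lib.MP_9f84a9_co
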