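import Pool.Agent.Lib.MP_9f84a9_co.Defs

/-!
# MP_9f84a9_co, module B: combinatorics of triangulated polygons.  Statements with complete proofs in the docstrings.
-/

set_option autoImplicit false

namespace Pool.Agent.Lib.MP_9f84a9_co

open Finset

/-- the edges of `K` inside `A`, as ordered pairs `v < w` -/
noncomputable def edg {N : ℕ} (K : Cx N) (A : Finset (Fin N)) : Finset (Fin N × Fin N) := by
  classical
  exact univ.filter fun e => e.1 < e.2 ∧ e.1 ∈ A ∧ e.2 ∈ A ∧ ∃ f ∈ K, e.1 ∈ f ∧ e.2 ∈ f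

/-- the flipped polygon: diagonal `ab` replaced by `xw` -/
def flp {N : ℕ} (a b w x : Fin N) (l r l' r' : PT N) : Dsc N :=
  ⟨x, w, PT.node a r' l, PT.node b r l'⟩

/-- [B1] Everything is invariant under moving the centre edge.
PROOF. Cases on `Mv`. `vl`: permutations (`List.perm` by `simp`/`List.Perm` rules, or count elements). `K`: for `lf`: `fac a b (node w l r) ∪ fac b a R =
insert {a,b,w} (fac a w l ∪ fac w b r) ∪ fac b a R` and `fac a w l ∪ fac w a (node b r R) = fac a w l ∪ insert {w,a,b} (fac w b r ∪ fac b a R)`; same set. `rt`: same.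
`WPos`, `SPos`, `I`, `Q`: `ar` is invariant under cyclic permutations (`ring`), `dist_comm`. Symmetry of `Eqv`: each `Mv` step can be undone by at most 3
steps: `lf` from `(a,b;node w l r;R)` gives `(a,w;l;node b r R)`; `sw` gives `(w,a;node b r R;l)`; `rt` gives `(b,a;R;node w l r)`; `sw` gives
`(a,b;node w l r;R)`. `rt` gives `(w,b;r;node a R l)`; `sw`: `(b,w;node a R l;r)`; `lf`: `(b,a;R;node w l r)`; `sw`. -/
def S_B1 : Prop :=
  ∀ (N : ℕ) (D D' : Dsc N), Dsc.Eqv D D' →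
    D.vl.Perm D'.vl ∧ (D.ok ↔ D'.ok) ∧ D.K = D'.K ∧ Dsc.Eqv D' D ∧
    ∀ p : Fin N → E, (D.WPos p ↔ D'.WPos p) ∧ (D.SPos p ↔ D'.SPos p) ∧ D.I p = D'.I p ∧ D.Q p = D'.Q p

/-- [B2] Any edge can be made the centre edge; moreover a given facet can be put on top of `P`.
PROOF. (1) Prove first for all `P`: if `f ∈ fac a b P` then there are `D'` with `Eqv ⟨a,b,P,R⟩ D'` and `w l r` with `D'.P = node w l r`,
`f = {D'.a, D'.b, w}` (induction on `P`, all `a b R`: for `node w l r`: `f` is the top triangle: `D' = D`; `f ∈ fac a w l`: move `lf` and use the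
induction hypothesis for `l`; `f ∈ fac w b r`: move `rt`). If `f ∈ fac b a R`: first `sw`. Given the triangle on top of `P` with base `(a,b)` and apex `w`, the moves
`sw∘lf` and `sw∘rt` rotate: `(a,b;node w l r;R) → (a,w;l;node b r R) → (w,a;node b r R;l)`: the same triangle on top of `P` with base `(w,a)`; similarly base `(b,w)`. So the
base can be any of `(a,b),(w,a),(b,w)`. (2) follows from (1) and one `sw` for the reversed pair; if there is no triangle, `f = {a,b}`. -/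
def S_B2 : Prop :=
  ∀ (N : ℕ) (D : Dsc N), D.ok → ∀ f ∈ D.K, ∀ x ∈ f, ∀ y ∈ f, x ≠ y →
    (∃ D', Dsc.Eqv D D' ∧ D'.a = x ∧ D'.b = y) ∧
    (¬ (D.P = PT.nil ∧ D.R = PT.nil) →
      ∃ D' w l r, Dsc.Eqv D D' ∧ D'.P = PT.node w l r ∧ f = {D'.a, D'.b, w} ∧
        ((D'.a = x ∧ D'.b = y) ∨ (D'.a = y ∧ D'.b = x)))

/-- [B3] The facets containing both ends of the centre edge.
PROOF. A facet of `fac a w l` has vertices in `{a,w} ∪ vs l` (B4 (1) for `PT`), which does not contain `b` (`Nodup`); a facet of `fac w b r` does not contain `a`. So the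
only facet of `fac a b (node w l r)` containing `a` and `b` is `{a,b,w}`. Same for `R`. -/
def S_B3 : Prop :=
  ∀ (N : ℕ) (D : Dsc N), D.ok → ∀ f ∈ D.K, D.a ∈ f → D.b ∈ f →
    (D.P = PT.nil ∧ D.R = PT.nil ∧ f = {D.a, D.b}) ∨
    (∃ w l r, D.P = PT.node w l r ∧ f = {D.a, D.b, w}) ∨
    (∃ w l r, D.R = PT.node w l r ∧ f = {D.a, D.b, w})

/-- [B4] Facets and vertices, the two sides.
PROOF. By induction on `PT` (for all base edges): vertices of facets of `fac a b P` are `a`, `b` or in `vs P`, all elements of `{a,b} ∪ vs P` occur in some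
facet if `P ≠ nil`; the facets have 3 elements if `a :: b :: vs P` is `Nodup`; the number of facets is at most the number of elements of `vs P`, and
`vs` is `Nodup` in `Fin N`, so `K.card ≤ N` (also in the case of no triangle, `N ≥ 2`). The rest: unfold. -/
def S_B4 : Prop :=
  ∀ (N : ℕ) (D : Dsc N), D.ok →
    (∀ f ∈ D.K, ∀ v ∈ f, v ∈ D.vl) ∧
    (∀ v ∈ D.vl, ∃ f ∈ D.K, v ∈ f) ∧
    (∀ f ∈ D.K, f.card = 3 ∨ (D.P = PT.nil ∧ D.R = PT.nil ∧ f = {D.a, D.b})) ∧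
    D.K.card ≤ N ∧ D.K.Nonempty ∧
    (Dsc.mk D.a D.b D.P PT.nil).ok ∧ (Dsc.mk D.b D.a D.R PT.nil).ok ∧
    (∀ f ∈ D.K, f ∈ (Dsc.mk D.a D.b D.P PT.nil).K ∨ f ∈ (Dsc.mk D.b D.a D.R PT.nil).K) ∧
    (∀ f ∈ (Dsc.mk D.a D.b D.P PT.nil).K, (∃ g ∈ D.K, f ⊆ g) ∧
      ∀ v ∈ f, v = D.a ∨ v = D.b ∨ v ∈ D.P.vs) ∧
    (∀ f ∈ (Dsc.mk D.b D.a D.R PT.nil).K, (∃ g ∈ D.K, f ⊆ g) ∧
      ∀ v ∈ f, v = D.a ∨ v = D.b ∨ v ∈ D.R.vs)

/-- [B5] Triangulated polygons are connected.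
PROOF. Induction on `PT`, for all base edges `(a,b)`: every point of a facet of `fac a b P` is joined to `vx a` by a path in any complex `K ⊇ fac a b P`: in the top
triangle one step; for `fac a w l` induction; for `fac w b r` induction joins it to `vx w`, then one step in `{a,b,w}`. Points on the `R` side are
joined to `vx b`, and `vx b` to `vx a` by one step (a facet containing `a` and `b` exists). Append and reverse paths. NOTE: `Cn` asks this for an arbitrary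
cost `c`, and only existence of some `k, r`. -/
def S_B5 : Prop := ∀ (N : ℕ) (D : Dsc N), D.ok → Cn D.K

/-- [B6] Number of edges inside a vertex set.
PROOF. Prove by induction on `P` (for all `a b` with `(a :: b :: vs P).Nodup`): for `B ⊆ {a,b} ∪ vs P` let `e(B)` be the number of edges inside `B` of the polygon
over `(a,b)` (pair `{a,b}` and all pairs in facets of `fac a b P`); then `e(B) ≤ 2|B|-3` if `|B| ≥ 2`, `e(B) = 0` if `|B| ≤ 1`. For `node w l r`: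
`B₁ = B ∩ ({a,w} ∪ vs l)`, `B₂ = B ∩ ({w,b} ∪ vs r)`, `e(B) ≤ e₁(B₁) + e₂(B₂) + [a,b ∈ B]`, `|B| = |B₁| + |B₂| - [w ∈ B]`. If `|B₁|,|B₂| ≥ 2`:
`≤ 2|B| + 2[w ∈ B] - 6 + [a,b ∈ B] ≤ 2|B| - 3`. If `|B₂| ≤ 1 < |B₁|`: `e ≤ 2|B₁| - 3 + [a,b ∈ B]`, and if `b ∈ B` then `B₂ = {b}`, `w ∉ B`,
`|B| = |B₁|+1`; fine. If `|B₁|,|B₂| ≤ 1`: `e(B) ≤ [a,b ∈ B]`. For a general disc: both sides over the common edge `{a,b}` in the same way. -/
def S_B6 : Prop :=
  ∀ (N : ℕ) (D : Dsc N), D.ok → ∀ A : Finset (Fin N), 2 ≤ A.card → (∀ v ∈ A, v ∈ D.vl) →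
    (edg D.K A).card + 3 ≤ 2 * A.card

/-- [B7] Equality case: a vertex outside `A` is cut off from `A` by an edge.
PROOF. For `P` over `(a,b)` let `e_P(A)` be the number of edges inside `A` of the polygon over `(a,b)` as in B6 (pair `{a,b}` and pairs in facets of `fac a b P`).
CLAIM (induction on `P`, for all `a b R A v`): if `(a :: b :: (vs P ++ vs R)).Nodup`, `A ⊆ V := {a,b} ∪ vs P`, `|A| ≥ 2`, `e_P(A) ≥ 2|A|-3`, `v ∈ V`, `v ∉ A`,
then there is `D' ~ ⟨a,b,P,R⟩` with `A ⊆ {D'.a, D'.b} ∪ vs D'.P`, `v ∈ vs D'.R`, and (*) if `a, b ∈ A` then `vs R ⊆ vs D'.P`.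
`P = nil`: impossible. `P = node w l r`: `V₁ = {a,w} ∪ vs l`, `V₂ = {w,b} ∪ vs r`, `A_i = A ∩ V_i`.
(1) `A ⊆ V₁`: `b ∉ A`, so (*) is empty. If `v ∉ V₁`: `D' = ⟨a,w,l,node b r R⟩` (`v = b` or `v ∈ vs r`). If `v ∈ V₁`: `e_l(A) = e_P(A)`, induction hypothesis for `l` over `(a,w)`
with `node b r R` in place of `R` (`⟨a,b,P,R⟩ ~ ⟨a,w,l,node b r R⟩`). (2) `A ⊆ V₂`: symmetric (move `rt`).
(3) Otherwise `A₁ ⊄ V₂`, `A₂ ⊄ V₁`. (3a) `|A₁|, |A₂| ≥ 2`: by B6 (its inductive form) `e_P(A) ≤ e_l(A₁) + e_r(A₂) + [a,b ∈ A] ≤ 2|A| + 2[w ∈ A] - 6 + [a,b ∈ A]`, so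
`w, a, b ∈ A` and equality for `A₁` and `A₂`. So `v ∈ vs l` or `v ∈ vs r`; say `vs l`. The induction hypothesis for `l` over `(a,w)`, `A₁` gives `D'` with
`A₁ ⊆ {D'.a,D'.b} ∪ vs D'.P`, `v ∈ vs D'.R` and by (*) (`a, w ∈ A₁`) `vs (node b r R) ⊆ vs D'.P`; so `A₂ ⊆ {w} ∪ vs (node b r R)` is on the `P`-side too, and `vs R ⊆ vs D'.P`.
(3b) `|A₁| ≤ 1`: `A₁ = {z}`, `z ∉ V₂`, `w ∉ A`, `|A₂| = |A| - 1`, `e_P(A) ≤ e_r(A₂) + [a,b ∈ A]`; if `|A₂| ≥ 2` this is `≤ 2|A| - 4`, impossible; so `|A| = 2` and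
`e_P(A) ≥ 1` forces `A = {a,b}`; `D' = ⟨b,a,R,P⟩` (move `sw`). `|A₂| ≤ 1`: same.
Finally a general `D` is `~` to some `⟨a,b,P,nil⟩` (apply `lf` until `P = nil`, then `sw`), `edg` and `K` are invariant (B1), and for `⟨a,b,P,nil⟩` with `P ≠ nil`,
`(edg K A).card = e_P(A)`; if `P = nil = R`: `A = {a,b}`, `v ∉ A` impossible. -/
def S_B7 : Prop :=
  ∀ (N : ℕ) (D : Dsc N), D.ok → ∀ A : Finset (Fin N), 2 ≤ A.card → (∀ v ∈ A, v ∈ D.vl) →
    2 * A.card ≤ (edg D.K A).card + 3 → ∀ v ∈ D.vl, v ∉ A →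
    ∃ D', Dsc.Eqv D D' ∧ (∀ x ∈ A, x = D'.a ∨ x = D'.b ∨ x ∈ D'.P.vs) ∧ v ∈ D'.R.vs

/-- [B8] An ear away from the centre edge.
PROOF. If `P = node w l r`: descend: if `l = r = nil` we are at an ear over the centre edge with tip `w`; else move `lf` (if `l ≠ nil`) or `rt` and continue in
`l` resp. `r` (induction on `P`, the tip found is in `vs P`, hence different from `a`, `b`). If `P = nil`, `R ≠ nil`: first `sw`. -/
def S_B8 : Prop :=
  ∀ (N : ℕ) (D : Dsc N), D.ok → ¬ (D.P = PT.nil ∧ D.R = PT.nil) →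
    ∃ D' w, Dsc.Eqv D D' ∧ D'.P = PT.node w PT.nil PT.nil ∧ w ≠ D.a ∧ w ≠ D.b

/-- [B9] Flips, combinatorially.
PROOF. Unfold. `M = fac a w l ∪ fac w b r ∪ fac b x l' ∪ fac x a r'`. -/
def S_B9 : Prop :=
  ∀ (N : ℕ) (a b w x : Fin N) (l r l' r' : PT N),
    (Dsc.mk a b (PT.node w l r) (PT.node x l' r')).vl.Perm (flp a b w x l r l' r').vl ∧
    ∃ M : Cx N,
      (Dsc.mk a b (PT.node w l r) (PT.node x l' r')).K = M ∪ {{a, b, w}, {a, b, x}} ∧
      (flp a b w x l r l' r').K = M ∪ {{a, x, w}, {b, x, w}}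

/-- [B10] Contraction of the boundary edge `(a,b)`, combinatorially; `g` maps `b` to `a`.
PROOF. Unfold; `fac w a r = (fac w b r).image (image g)` if `a, b ∉ vs r`, `w ≠ a, b` (induction on `r`, only the base vertex `b` occurs: prove for all `PT`: renaming a base
vertex). Facets of `fac a w l` do not contain `b`, facets of `fac w b r` do not contain `a`. `{a,b,w}` is mapped to `{a,w}`, which is contained in a facet of the new complex. -/
def S_B10 : Prop :=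
  ∀ (N : ℕ) (a b w : Fin N) (l r : PT N), (Dsc.mk a b (PT.node w l r) PT.nil).ok →
    (Dsc.mk a w l r).ok ∧ (Dsc.mk a b (PT.node w l r) PT.nil).vl.Perm (b :: (Dsc.mk a w l r).vl) ∧
    (∀ f ∈ (Dsc.mk a b (PT.node w l r) PT.nil).K,
      ∃ f' ∈ (Dsc.mk a w l r).K, f.image (fun v => if v = b then a else v) ⊆ f') ∧
    (∀ f' ∈ (Dsc.mk a w l r).K, b ∉ f' ∧ ∃ f ∈ (Dsc.mk a b (PT.node w l r) PT.nil).K,
      f' ⊆ f ∨ (a ∉ f ∧ f' = f.image (fun v => if v = b then a else v))) ∧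
    ∀ p : Fin N → E, p a = p b → (Dsc.mk a b (PT.node w l r) PT.nil).WPos p → (Dsc.mk a w l r).WPos p

end Pool.Agent.Lib.MP_9f84a9_co
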