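import Pool.Agent.Lib.MP_9f84a9_co.Main
import Pool.Agent.Lib.MP_9f84a9_co.E.Final
import Pool.Agent.Lib.MP_9f84a9_co.F.MainF
import Pool.Agent.Lib.MP_9f84a9_co.G.All
import Pool.Agent.Lib.MP_9f84a9_co.V.Main
import Pool.Agent.Lib.MP_9f84a9_co.W.Main
import Pool.Agent.Lib.MP_9f84a9_co.Lat.Main
import Pool.Agent.Lib.MP_9f84a9_co.R.Main
import Pool.Agent.Lib.MP_9f84a9_co.P.X1
import Pool.Agent.Lib.MP_9f84a9_co.P.X2
import Pool.Agent.Lib.MP_9f84a9_co.P.B6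
import Pool.Agent.Lib.MP_9f84a9_co.P.B7

/-!
# MP_9f84a9_co (Gilbert-Pollak): Theorem Y, all sections put together
-/

set_option autoImplicit false

namespace Pool.Agent.Lib.MP_9f84a9_co

theorem out_EX : S_EX := o_EX t_A1 t_A2 t_A3 t_B4 t_B5 out_surg out_sep0 out_SL
theorem out_ml : S_ml := o_ml t_A1 t_A2 t_A3 t_B4 t_B5 out_surg out_sep0
theorem out_VL : S_VL :=
  o_VL t_A1 t_A2 t_A3 a_A7 t_B1 t_B4 t_B5 t_X2 out_surg out_sep0 out_SL out_pers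
    (out_geo out_surg)
theorem out_count : S_count :=
  o_count t_A1 t_A2 t_A3 a_A6 t_B1 t_B4 t_B5 t_B6 (t_B7 t_B1) p_G1 a_G2 a_G3 t_X1 t_X2 out_SL
    out_sep0 out_surg out_EX out_ml out_VL
theorem out_lat : S_lat := Lat.p_lat t_A1 t_A2 t_B1 t_B2 t_B4 t_B5

/-- Theorem Y -/
theorem thmY (n : ℕ) : ThmY n := thmY_all out_comp out_star out_surg out_count out_lat n

end Pool.Agent.Lib.MP_9f84a9_co
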