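import Pool.Agent.Lib.MP_9f84a9_co.Out

/-!
# MP_9f84a9_co: Theorem Y from the section outputs
-/

set_option autoImplicit false

namespace Pool.Agent.Lib.MP_9f84a9_co

open Finset

theorem InD.mono {N : ℕ} {Cl : Finset ℕ} {P P' : ℝ} {S : Cfg N} (h : InD Cl P S) (hP : P ≤ P') :
    InD Cl P' S :=
  ⟨fun q hq => ⟨(h.ok q hq).dok, (h.ok q hq).wpos, (h.ok q hq).labs, (h.ok q hq).nods,
    (h.ok q hq).lvs, fun v hv w hw => ((h.ok q hq).diam v hv w hw).trans hP⟩, h.conn, h.cnt, h.mst⟩

theorem sum_map_le {α : Type} (l : List α) (f g : α → ℝ) (h : ∀ a ∈ l, f a ≤ g a) :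
    (l.map f).sum ≤ (l.map g).sum := by
  induction l with
  | nil => simp
  | cons a l ih =>
    simp only [List.map_cons, List.sum_cons]
    have := h a (by simp)
    have := ih (fun b hb => h b (by simp [hb]))
    linarith

theorem sum_map_nat_le {α : Type} (l : List α) (f g : α → ℕ) (h : ∀ a ∈ l, f a ≤ g a) :
    (l.map f).sum ≤ (l.map g).sum := by
  induction l with
  | nil => simp
  | cons a l ih =>
    simp only [List.map_cons, List.sum_cons]
    have := h a (by simp)
    have := ih (fun b hb => h b (by simp [hb]))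
    omega

/-- Theorem Y from the outputs of the sections -/
theorem thmY_all (hcomp : S_comp) (hstar : S_star) (hsurg : S_surg) (hcount : S_count)
    (hlat : S_lat) : ∀ n, ThmY n := by
  intro n
  induction n using Nat.strong_induction_on with
  | _ n ih =>
    intro N Cl P S₀ hn hS₀
    by_contra hlt
    push Not at hlt
    set R1 : ℝ := 2 * (Cl.card * N + 5) with hR1
    have hS₁ : InD Cl (max P (2 * R1 + 2)) S₀ := hS₀.mono (le_max_left _ _)
    obtain ⟨S, hS⟩ := hcomp N Cl (max P (2 * R1 + 2)) R1 S₀ hS₁
    have hctx : Ctx Cl (max P (2 * R1 + 2)) R1 S :=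
      ⟨hS, (hS.o1 S₀ hS₁).trans_lt hlt, fun m hm => ih m (hn ▸ hm), hR1, le_max_right _ _⟩
    obtain ⟨hsu, -, -, -⟩ := hsurg N Cl _ _ S hctx
    obtain ⟨ℓ, hℓ, h1, hed⟩ := hcount N Cl _ _ S hctx
    have hne : Cl.Nonempty := by
      rw [← Finset.card_pos]
      have := hS.mem.cnt
      omega
    have hst := hstar N Cl S (fun q hq => (hS.mem.ok q hq).labs) hS.mem.conn hne
    have hst2 : Cl.card ≤ (S.map fun q => q.lv.length - 1).sum + 1 := by
      refine hst.trans (Nat.add_le_add_right (sum_map_nat_le _ _ _ fun q hq => ?_) 1)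
      have h1 : (q.lv.map q.lab).toFinset.card ≤ (q.lv.map q.lab).length :=
        List.toFinset_card_le _
      rw [List.length_map] at h1
      omega
    have hpos : ∀ q ∈ S, 1 ≤ q.lv.length := by
      intro q _
      have h : ∀ A : Net N, 1 ≤ A.leaves.length := by
        intro A
        induction A with
        | leaf v => simp [Net.leaves]
        | node z l r ihl ihr => simp only [Net.leaves, List.length_append]; omega
      have := h q.T.1
      simp only [Piece.lv, List.length_append]
      omega
    have hL : Real.sqrt 3 / 2 * ℓ * ((S.map fun q => q.lv.length - 1).sum : ℕ) ≤ Lc S := by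
      have hLc : (S.map fun q => Real.sqrt 3 / 2 * ℓ * ((q.lv.length : ℝ) - 1)).sum ≤ Lc S := by
        refine sum_map_le _ _ _ fun q hq => ?_
        exact hlat N Cl _ ℓ q (hS.mem.ok q hq) ((hsu q hq).cls.of_map _) hℓ (hed q hq)
      have heq : (S.map fun q => Real.sqrt 3 / 2 * ℓ * ((q.lv.length : ℝ) - 1)).sum =
          Real.sqrt 3 / 2 * ℓ * ((S.map fun q => q.lv.length - 1).sum : ℕ) := by
        have : ∀ l : List (Piece N), (∀ q ∈ l, 1 ≤ q.lv.length) →
            (l.map fun q => Real.sqrt 3 / 2 * ℓ * ((q.lv.length : ℝ) - 1)).sum =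
            Real.sqrt 3 / 2 * ℓ * ((l.map fun q => q.lv.length - 1).sum : ℕ) := by
          intro l hl
          induction l with
          | nil => simp
          | cons q l ihl =>
            simp only [List.map_cons, List.sum_cons]
            rw [ihl (fun b hb => hl b (by simp [hb]))]
            have h := hl q (by simp)
            push_cast [Nat.cast_sub h]
            ring
        exact this S hpos
      rw [← heq]
      exact hLc
    have hfin : Real.sqrt 3 / 2 ≤ Lc S := by
      refine le_trans ?_ hL
      have h2 : ((Cl.card : ℝ) - 1) ≤ ((S.map fun q => q.lv.length - 1).sum : ℕ) := by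
        have : (Cl.card : ℝ) ≤ ((S.map fun q => q.lv.length - 1).sum : ℕ) + 1 := by
          exact_mod_cast hst2
        linarith
      have h3 : (1 : ℝ) ≤ ℓ * ((S.map fun q => q.lv.length - 1).sum : ℕ) := by
        nlinarith
      have h4 : 0 ≤ Real.sqrt 3 / 2 := by positivity
      nlinarith
    exact absurd hctx.lt (not_lt.mpr hfin)

end Pool.Agent.Lib.MP_9f84a9_co
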