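import Pool.Agent.Lib.MP_9f84a9_co.Defs

/-!
# MP_9f84a9_co: interface between the sections (named outputs)

Paper proof: team-store `MP_9f84a9_proof.md`; section numbers refer to it.
-/

set_option autoImplicit false

namespace Pool.Agent.Lib.MP_9f84a9_co

open Finset Filter Topology

/-! ## Symbolic networks (node names `Fin k`) -/

inductive SNet (N k : ℕ) : Type
  | leaf (v : Fin N) : SNet N k
  | node (i : Fin k) (l r : SNet N k) : SNet N k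

namespace SNet
variable {N k : ℕ}

def top : SNet N k → Fin N ⊕ Fin k
  | leaf v => Sum.inl v
  | node i _ _ => Sum.inr i

def leaves : SNet N k → List (Fin N)
  | leaf v => [v]
  | node _ l r => l.leaves ++ r.leaves

def names : SNet N k → List (Fin k)
  | leaf _ => []
  | node i l r => i :: (l.names ++ r.names)

/-- edges below the top -/
def edges : SNet N k → List ((Fin N ⊕ Fin k) × (Fin N ⊕ Fin k))
  | leaf _ => []
  | node i l r => (Sum.inr i, l.top) :: (Sum.inr i, r.top) :: (l.edges ++ r.edges)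

/-- the network with the nodes placed at `z i` -/
def real (z : Fin k → Pt N) : SNet N k → Net N
  | leaf v => Net.leaf v
  | node i l r => Net.node (z i) (l.real z) (r.real z)

end SNet

/-- symbolic piece (combinatorial type) -/
structure SP (N k : ℕ) : Type where
  D : Dsc N
  lab : Fin N → ℕ
  T : SNet N k × SNet N k

/-- real data of a piece: positions of the vertices, points of the nodes -/
abbrev Dat (N k : ℕ) := (Fin N → E) × (Fin k → Pt N)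

namespace SP
variable {N k : ℕ}

def real (t : SP N k) (y : Dat N k) : Piece N :=
  ⟨t.D, y.1, t.lab, (t.T.1.real y.2, t.T.2.real y.2)⟩

def edges (t : SP N k) : List ((Fin N ⊕ Fin k) × (Fin N ⊕ Fin k)) :=
  (t.T.1.top, t.T.2.top) :: (t.T.1.edges ++ t.T.2.edges)

def names (t : SP N k) : List (Fin k) := t.T.1.names ++ t.T.2.names

end SP

/-- positions of vertices and nodes -/
noncomputable def ipos {N k : ℕ} (y : Dat N k) : Fin N ⊕ Fin k → E :=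
  Sum.elim y.1 (fun i => pos y.1 (y.2 i))

/-- the configuration with types `t j` and data `y j` -/
noncomputable def mk {N k m : ℕ} (t : Fin m → SP N k) (y : Fin m → Dat N k) : Cfg N :=
  List.ofFn fun j => (t j).real (y j)

/-- unit vector -/
noncomputable def uni (u : E) : E := ‖u‖⁻¹ • u

/-! ## Chord sets -/

section chords
variable {N m : ℕ}

open Classical in
/-- chords `(j,v,w)`, `v < w` vertices of the disc `j` -/
noncomputable def chs (q : Fin m → Piece N) : Finset (Fin m × Fin N × Fin N) :=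
  univ.filter fun c => c.2.1 < c.2.2 ∧ c.2.1 ∈ (q c.1).D.vl ∧ c.2.2 ∈ (q c.1).D.vl

/-- length of a chord -/
noncomputable def cl (q : Fin m → Piece N) (c : Fin m × Fin N × Fin N) : ℝ :=
  (q c.1).d (vx c.2.1) (vx c.2.2)

/-- the chord `c` joins the classes `a`, `b` -/
def cj (q : Fin m → Piece N) (c : Fin m × Fin N × Fin N) (a b : ℕ) : Prop :=
  ((q c.1).lab c.2.1 = a ∧ (q c.1).lab c.2.2 = b) ∨ ((q c.1).lab c.2.1 = b ∧ (q c.1).lab c.2.2 = a)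

/-- `X` joins all classes -/
def JX (Cl : Finset ℕ) (q : Fin m → Piece N) (X : Finset (Fin m × Fin N × Fin N)) : Prop :=
  ∀ a ∈ Cl, ∀ b ∈ Cl, Relation.ReflTransGen (fun x y => ∃ c ∈ X, cj q c x y) a b

/-- minimum spanning sets (of total length 1) -/
def Mn (Cl : Finset ℕ) (q : Fin m → Piece N) (X : Finset (Fin m × Fin N × Fin N)) : Prop :=
  X ⊆ chs q ∧ JX Cl q X ∧ ∑ c ∈ X, cl q c = 1

/-- chord in some minimum spanning set -/
def Gam (Cl : Finset ℕ) (q : Fin m → Piece N) (c : Fin m × Fin N × Fin N) : Prop :=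
  ∃ X, Mn Cl q X ∧ c ∈ X

end chords

/-! ## The context of the main argument -/

/-- `z` is an inner point of the disc (inside a triangle or on a diagonal, not a vertex) -/
def Inn {N : ℕ} (D : Dsc N) (z : Pt N) : Prop :=
  In D.K z ∧ ((∃ f ∈ D.K, f.card = 3 ∧ ∀ v ∈ f, 0 < z v) ∨
    (∃ D' : Dsc N, Dsc.Eqv D D' ∧ D'.P ≠ PT.nil ∧ D'.R ≠ PT.nil ∧ 0 < z D'.a ∧ 0 < z D'.b ∧
      z D'.a + z D'.b = 1))

/-- the extremal configuration, assuming that Theorem Y fails (for the least number of classes) -/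
structure Ctx {N : ℕ} (Cl : Finset ℕ) (P R1 : ℝ) (S : Cfg N) : Prop where
  opt : Opt Cl P R1 S
  lt : Lc S < Real.sqrt 3 / 2
  ih : ∀ n < Cl.card, ThmY n
  hR1 : R1 = 2 * (Cl.card * N + 5)
  hP : 2 * R1 + 2 ≤ P

/-! ## Outputs -/

/-- section 2 -/
def S_comp : Prop :=
  ∀ (N : ℕ) (Cl : Finset ℕ) (P R1 : ℝ) (S₀ : Cfg N), InD Cl P S₀ → ∃ S : Cfg N, Opt Cl P R1 S

/-- star lemma: a connected hypergraph has enough (distinct!) leaves -/
def S_star : Prop :=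
  ∀ (N : ℕ) (Cl : Finset ℕ) (S : Cfg N), (∀ q ∈ S, ∀ v, q.lab v ∈ Cl) →
    (∀ a ∈ Cl, ∀ b ∈ Cl, HJ S a b) → Cl.Nonempty →
    Cl.card ≤ (S.map fun q => (q.lv.map q.lab).toFinset.card - 1).sum + 1

/-- section 3, facts about the pieces of the extremal configuration -/
structure Surg {N : ℕ} (q : Piece N) : Prop where
  /-- leaves have distinct classes -/
  cls : (q.lv.map q.lab).Nodup
  /-- 3.7 -/
  spos : q.D.SPos q.p
  /-- nodes are not at vertices -/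
  nv : ∀ z ∈ q.nd, ∀ v, z ≠ vx v
  /-- leaf edges are nondegenerate, SPLIT in strict form -/
  le : ∀ T', Net.Eqv q.T T' → ∀ v, T'.1 = Net.leaf v → T'.2.top ≠ vx v
  split : ∀ T', Net.Eqv q.T T' → ∀ w ∈ q.D.vl, vx w ≠ T'.1.top → vx w ≠ T'.2.top →
    q.d T'.1.top T'.2.top < q.d T'.1.top (vx w) + q.d (vx w) T'.2.top
  /-- 3.3 EAR -/
  ear : ∀ D', Dsc.Eqv q.D D' → D'.R ≠ PT.nil → ∃ u ∈ q.lv, u ∈ D'.R.vs
  /-- 3.6 -/
  del : ∀ (a b w x : Fin N) (l r l' r' : PT N),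
    Dsc.Eqv q.D ⟨a, b, PT.node w l r, PT.node x l' r'⟩ → ∀ s t : ℝ, 0 ≤ s → s ≤ 1 → 0 ≤ t → t ≤ 1 →
    (1 - s) • q.p a + s • q.p b = (1 - t) • q.p x + t • q.p w →
    s * (1 - s) * dist (q.p a) (q.p b) ^ 2 ≤ t * (1 - t) * dist (q.p x) (q.p w) ^ 2
  /-- 3.8 -/
  two : q.lv.length = 2 → q.D.P = PT.nil ∧ q.D.R = PT.nil

/-- section 3 -/
def S_surg : Prop :=
  ∀ (N : ℕ) (Cl : Finset ℕ) (P R1 : ℝ) (S : Cfg N), Ctx Cl P R1 S →
    (∀ q ∈ S, Surg q) ∧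
    (∀ q ∈ S, ∀ v ∈ q.D.vl, ∀ w ∈ q.D.vl, q.d (vx v) (vx w) = 0 → q.lab v = q.lab w) ∧
    0 < Lc S ∧ (∀ M : ℝ, MSTge Cl S M → M ≤ 1)

/-- section 4, facts about the networks of the extremal configuration -/
structure Geo {N : ℕ} (q : Piece N) : Prop where
  /-- 4.2 -/
  str : ∀ T', Net.Eqv q.T T' →
    q.d T'.1.top T'.2.top = dist (pos q.p T'.1.top) (pos q.p T'.2.top)
  /-- 4.3 -/
  pos : ∀ T', Net.Eqv q.T T' → T'.1.top ≠ T'.2.top
  inn : ∀ z ∈ q.nd, Inn q.D z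

/-- section 4 -/
def S_geo : Prop :=
  ∀ (N : ℕ) (Cl : Finset ℕ) (P R1 : ℝ) (S : Cfg N), Ctx Cl P R1 S → ∀ q ∈ S, Geo q

/-- 4.1 -/
def S_SL : Prop :=
  ∀ (N : ℕ) (D : Dsc N) (p : Fin N → E), D.ok → D.SPos p → ∀ x y, In D.K x → In D.K y →
    (∃ v ∈ D.vl, vx v ≠ x ∧ vx v ≠ y ∧
      dK D.K (ce p) x (vx v) + dK D.K (ce p) (vx v) y ≤ dK D.K (ce p) x y) ∨
    dK D.K (ce p) x y = dist (pos p x) (pos p y)

/-- distinct points of a positive disc have positive distance -/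
def S_sep0 : Prop :=
  ∀ (N : ℕ) (D : Dsc N) (p : Fin N → E), D.ok → D.SPos p →
    (∀ x y, In D.K x → In D.K y → dK D.K (ce p) x y = 0 → x = y) ∨ (D.P = PT.nil ∧ D.R = PT.nil)

/-- 4.4 -/
def S_pers : Prop :=
  ∀ (N : ℕ) (D : Dsc N) (p : Fin N → E) (z : Pt N), D.ok → D.SPos p → Inn D z →
    ∀ (ι : Type) (l : Filter ι) (pf : ι → Fin N → E) (qf : ι → E), Tendsto pf l (𝓝 p) →
      Tendsto qf l (𝓝 (pos p z)) →
      ∃ zf : ι → Pt N, Tendsto zf l (𝓝 z) ∧ ∀ᶠ i in l, In D.K (zf i) ∧ pos (pf i) (zf i) = qf i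

/-- section 5: `MSTge` in terms of finite chord sets; minimum spanning sets exist -/
def S_mst : Prop :=
  ∀ (N m : ℕ) (Cl : Finset ℕ) (P : ℝ) (q : Fin m → Piece N), (∀ j, (q j).ok Cl P) →
    (∀ M : ℝ, MSTge Cl (List.ofFn q) M ↔
      ∀ X ⊆ chs q, JX Cl q X → M ≤ ∑ c ∈ X, cl q c)

/-- 5.1 -/
def S_EX : Prop :=
  ∀ (N m : ℕ) (Cl : Finset ℕ) (P R1 : ℝ) (q : Fin m → Piece N), Ctx Cl P R1 (List.ofFn q) →
    (∃ X, Mn Cl q X) ∧
    (∀ c, Gam Cl q c → 0 < cl q c ∧ cl q c ≤ 1 ∧ (q c.1).lab c.2.1 ≠ (q c.1).lab c.2.2 ∧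
      ¬ Relation.ReflTransGen (fun x y => ∃ c' ∈ chs q, cl q c' < cl q c ∧ cj q c' x y)
        ((q c.1).lab c.2.1) ((q c.1).lab c.2.2) ∧
      (∀ w ∈ (q c.1).D.vl, w ≠ c.2.1 → w ≠ c.2.2 →
        cl q c < (q c.1).d (vx c.2.1) (vx w) + (q c.1).d (vx w) (vx c.2.2)) ∧
      cl q c = dist ((q c.1).p c.2.1) ((q c.1).p c.2.2))

/-- 5.2 -/
def S_ml : Prop :=
  ∀ (N m : ℕ) (Cl : Finset ℕ) (P R1 : ℝ) (q : Fin m → Piece N), Ctx Cl P R1 (List.ofFn q) →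
    (∀ X, Mn Cl q X → X.card + 1 = Cl.card) ∧
    (∀ ℓ : ℝ, (∀ c, Gam Cl q c → cl q c ≤ ℓ) → ∀ X X', Mn Cl q X → Mn Cl q X' →
      (X.filter fun c => cl q c = ℓ).card = (X'.filter fun c => cl q c = ℓ).card)

/-- 5.3, the variation lemma -/
def S_VL : Prop :=
  ∀ (N k m : ℕ) (Cl : Finset ℕ) (P R1 : ℝ) (t : Fin m → SP N k) (y : Fin m → Dat N k),
    (∀ j, (t j).names.Nodup) → Ctx Cl P R1 (mk t y) →
    ∀ δ : Fin m → Fin N ⊕ Fin k → E,
      (∀ j, ∀ e ∈ (t j).edges,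
        inner ℝ (δ j e.1 - δ j e.2) (rot (ipos (y j) e.1 - ipos (y j) e.2)) = 0) →
      (∀ X, Mn Cl (fun j => (t j).real (y j)) X →
        0 ≤ ∑ c ∈ X, inner ℝ (δ c.1 (Sum.inl c.2.1) - δ c.1 (Sum.inl c.2.2))
          (uni ((y c.1).1 c.2.1 - (y c.1).1 c.2.2))) →
      (∀ j, ∀ v ∈ (t j).D.vl, ∀ w ∈ (t j).D.vl, ∀ᶠ s in 𝓝[>] (0 : ℝ),
        dist ((y j).1 v + s • δ j (Sum.inl v)) ((y j).1 w + s • δ j (Sum.inl w)) ≤ P) →
      ∃ y' : ℝ → Fin m → Dat N k, ∀ᶠ s in 𝓝[>] (0 : ℝ),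
        (∀ j v, (y' s j).1 v = (y j).1 v + s • δ j (Sum.inl v)) ∧
        (∀ j, ∀ i ∈ (t j).names,
          pos (y' s j).1 ((y' s j).2 i) = pos (y j).1 ((y j).2 i) + s • δ j (Sum.inr i)) ∧
        InD Cl P (mk t (y' s)) ∧
        Lc (mk t (y' s)) = Lc (mk t y) + s * ∑ j, ((t j).edges.map fun e =>
          inner ℝ (δ j e.1 - δ j e.2) (uni (ipos (y j) e.1 - ipos (y j) e.2))).sum

/-- section 6 -/
def S_bd : Prop :=
  ∀ (N : ℕ) (Cl : Finset ℕ) (P R1 : ℝ) (S : Cfg N), Ctx Cl P R1 S →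
    ∀ q ∈ S, ∀ v ∈ q.D.vl, dist (q.p v) (q.p q.root) ≤ R1

/-- section 7 -/
def S_count : Prop :=
  ∀ (N : ℕ) (Cl : Finset ℕ) (P R1 : ℝ) (S : Cfg N), Ctx Cl P R1 S →
    ∃ ℓ : ℝ, 0 < ℓ ∧ 1 ≤ ((Cl.card : ℝ) - 1) * ℓ ∧
      ∀ q ∈ S, ∀ f ∈ q.D.K, ∀ v ∈ f, ∀ w ∈ f, v ≠ w → dist (q.p v) (q.p w) = ℓ

/-- section 8 -/
def S_lat : Prop :=
  ∀ (N : ℕ) (Cl : Finset ℕ) (P ℓ : ℝ) (q : Piece N), q.ok Cl P → q.lv.Nodup → 0 < ℓ →
    (∀ f ∈ q.D.K, ∀ v ∈ f, ∀ w ∈ f, v ≠ w → dist (q.p v) (q.p w) = ℓ) →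
    Real.sqrt 3 / 2 * ℓ * ((q.lv.length : ℝ) - 1) ≤ q.L

/-- section 1: the frozen statement follows from Theorem Y -/
def S_red : Prop :=
  (∀ n, ThmY n) →
    ∀ (X S : Finset (EuclideanSpace ℝ (Fin 2))), X.Nonempty → X ⊆ S →
      ∀ (G : SimpleGraph S), G.Connected →
        ∃ (H : SimpleGraph X), H.Connected ∧
          (open Classical in
          Real.sqrt 3 / 2 *
              (∑ a : X, ∑ b : X,
                if H.Adj a b then
                  dist (a : EuclideanSpace ℝ (Fin 2)) (b : EuclideanSpace ℝ (Fin 2))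
                else 0)
            ≤ ∑ a : S, ∑ b : S,
                if G.Adj a b then
                  dist (a : EuclideanSpace ℝ (Fin 2)) (b : EuclideanSpace ℝ (Fin 2))
                else 0)

end Pool.Agent.Lib.MP_9f84a9_co
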