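import Pool.Agent.Lib.MP_9f84a9_co.Out
import Pool.Agent.Lib.MP_9f84a9_co.StmA
import Pool.Agent.Lib.MP_9f84a9_co.StmB

/-!
# MP_9f84a9_co, module E (section 2, existence of the extremal configuration `S_comp`)

Every configuration of `InD Cl P` has at most `Cl.card` pieces and leaves, so it is `mk t y` with types `t j` in the finite set
`Gd`, and after a translation the data `y` lie in a compact box. For fixed types `InD` is closed, `Lc`, `Phi`, `Ic`, `Qc` are
continuous, `mu` is constant: lexicographic minimum over a finite family of compact sets.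
Statements with complete proofs in the docstrings. Owner: helper87.
-/

set_option autoImplicit false

namespace Pool.Agent.Lib.MP_9f84a9_co

open Finset Filter Topology

/-- admissible combinatorial types -/
def Gd (N k n : ℕ) (Cl : Finset ℕ) : Set (SP N k) :=
  {t | t.D.ok ∧ (∀ v, t.lab v ∈ Cl) ∧ (t.T.1.leaves ++ t.T.2.leaves).length ≤ n}

/-- the compact box of data -/
def Box (N k : ℕ) (P : ℝ) : Set (Dat N k) :=
  {y | (∀ v, ‖y.1 v‖ ≤ P) ∧ ∀ i v, 0 ≤ y.2 i v ∧ y.2 i v ≤ 1}

/-- [E0] Elementary facts on networks and their symbolic versions.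
PROOF. Induction on `A` resp. `T`, unfolding `real`, `leaves`, `nodes`, `names`, `fl`, `len`. -/
def S_E0 : Prop :=
  ∀ (N k : ℕ),
    (∀ A : Net N, A.nodes.length + 1 = A.leaves.length) ∧
    (∀ A : Net N, A.fl ∈ A.leaves) ∧
    (∀ (A : SNet N k) (z : Fin k → Pt N), (A.real z).leaves = A.leaves) ∧
    (∀ (A : SNet N k) (z : Fin k → Pt N), (A.real z).nodes = A.names.map z) ∧
    (∀ (A : SNet N k) (z z' : Fin k → Pt N), (A.real z).fl = (A.real z').fl) ∧
    (∀ (A : SNet N k) (z : Fin k → Pt N), (A.real z).top = Sum.elim vx z A.top)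

/-- [E1] Lexicographic minimum over a finite family of compact sets.
PROOF. Step lemma: if all `C i` are compact, `f i` is continuous on `C i`, some `C i` is nonempty, then there are `i₀`, `y₀ ∈ C i₀` with `f i₀ y₀ ≤ f i y` for
all `i`, `y ∈ C i` (for every `i` with `C i` nonempty take a minimum point, `IsCompact.exists_isMinOn`, then a minimum over the finitely many `i`,
`Set.Finite.exists_minimalFor` or `Finite.exists_min`), and the sets `{y ∈ C i | f i y ≤ f i₀ y₀}` are again compact (closed in the compact set: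
`ContinuousOn.preimage_isClosed_of_isClosed` and `IsCompact.of_isClosed_subset`). Apply the step lemma to `f₁`; then to
`g` (as a real function, constant on each `C i`), to `-f₂`, to `f₃`, to `f₄`, each time with the smaller sets. The point obtained at the end has all the
properties: a point `y'` with `f₁ i' y' ≤ f₁ i y` is in the second family, etc. -/
def S_E1 : Prop :=
  ∀ (ι : Type) (Y : ι → Type) [Finite ι] [∀ i, TopologicalSpace (Y i)] [∀ i, T2Space (Y i)]
    (C : ∀ i, Set (Y i)) (f₁ f₂ f₃ f₄ : ∀ i, Y i → ℝ) (g : ι → ℕ),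
    (∀ i, IsCompact (C i)) → (∀ i, ContinuousOn (f₁ i) (C i)) → (∀ i, ContinuousOn (f₂ i) (C i)) →
    (∀ i, ContinuousOn (f₃ i) (C i)) → (∀ i, ContinuousOn (f₄ i) (C i)) →
    (∃ i, (C i).Nonempty) →
    ∃ i, ∃ y ∈ C i,
      (∀ i', ∀ y' ∈ C i', f₁ i y ≤ f₁ i' y') ∧
      (∀ i', ∀ y' ∈ C i', f₁ i' y' ≤ f₁ i y → g i ≤ g i') ∧
      (∀ i', ∀ y' ∈ C i', f₁ i' y' ≤ f₁ i y → g i' ≤ g i → f₂ i' y' ≤ f₂ i y) ∧
      (∀ i', ∀ y' ∈ C i', f₁ i' y' ≤ f₁ i y → g i' ≤ g i → f₂ i y ≤ f₂ i' y' → f₃ i y ≤ f₃ i' y') ∧
      (∀ i', ∀ y' ∈ C i', f₁ i' y' ≤ f₁ i y → g i' ≤ g i → f₂ i y ≤ f₂ i' y' →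
        f₃ i' y' ≤ f₃ i y → f₄ i y ≤ f₄ i' y')

/-- [E2] There are finitely many admissible types.
PROOF. (1) For every `n` the set `{P : PT N | P.vs.length ≤ n}` is finite: induction on `n`; for `n + 1` it is contained in
`{nil} ∪` the image of `univ ×ˢ {l | l.vs.length ≤ n} ×ˢ {r | r.vs.length ≤ n}` under `node` (`Set.Finite.subset`, `Set.Finite.image`). If `D.ok` then `D.vl.Nodup`
in `Fin N`, so `D.P.vs.length ≤ N` and `D.R.vs.length ≤ N` (`List.Nodup.length_le_card`): finitely many `D`. (2) `lab`: the functions `Fin N → ℕ` with values in `Cl` form a finite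
set (`Set.Finite.pi`, or image of the finite type `Fin N → Cl`). (3) `{A : SNet N k | A.leaves.length ≤ n}` is finite: induction on `n`, every network has at least
one leaf, so both branches of a node have one leaf less. (4) `SP N k` embeds in the product. -/
def S_E2 : Prop := ∀ (N k n : ℕ) (Cl : Finset ℕ), (Gd N k n Cl).Finite

/-- [E3] Symbolic form of a network.
PROOF. Let `ns = T.1.nodes ++ T.2.nodes`, `z i = ns.getD i 0` (values in `[0,1]`: either a node or `0`). Lemma, by induction on `A`, for all `pre post`: if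
`ns = pre ++ A.nodes ++ post` and `ns.length ≤ k` then there is `A' : SNet N k` with `A'.real (fun i => ns.getD i 0) = A`: for
`node z₀ l r` take the name `⟨pre.length, _⟩` for the top node, `l` with `pre ++ [z₀]`, `r.nodes ++ post`, and `r` with `pre ++ z₀ :: l.nodes`, `post`. Apply it to `T.1` and `T.2`. -/
def S_E3 : Prop :=
  ∀ (N k : ℕ) (T : Net N × Net N), (T.1.nodes ++ T.2.nodes).length ≤ k →
    (∀ z ∈ T.1.nodes ++ T.2.nodes, ∀ v, 0 ≤ z v ∧ z v ≤ 1) →
    ∃ (T' : SNet N k × SNet N k) (z : Fin k → Pt N),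
      (T'.1.real z, T'.2.real z) = T ∧ ∀ i v, 0 ≤ z i v ∧ z i v ≤ 1

/-- [E4] Normalisation of the positions of a piece.
PROOF. `p' v = q.p v - q.p q.root` for `v ∈ q.D.vl`, `p' v = 0` otherwise. `q.root` is the first leaf of `q.T.1` (E0), so it is in `q.D.vl` (`ok.lvs`), `p' q.root = 0`, and
`‖p' v‖ ≤ P` by `ok.diam` (note `0 ≤ P` by `diam` for `v = w`). If `In q.D.K x` then `x` is supported in `q.D.vl` (B4) with sum 1, so
`pos p' x = pos q.p x - q.p q.root`. Hence `ce p' x y = ce q.p x y` for `x, y` in `q.D.K`. Lemma (induction on paths): if `c x y = c' x y` for all `Stp K x y` then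
`Path K c x y k r → Path K c' x y k r`; so `dK` is the same. `ar` is invariant under translations, `WPos`, `I`, `Q` only use the positions of the vertices in `vl` (induction on
`PT`: if `p` and `p'` agree at `a`, `b` and on `vs P` then `P.WPos p a b ↔ P.WPos p' a b`, the same for `I`, `Q`; and translation invariance of `WPos`, `Q`). `Phi`: every term is
unchanged (for the nodes use `ok.nods`). `L`: `tlen` with the same `d`. -/
def S_E4 : Prop :=
  ∀ (N : ℕ) (Cl : Finset ℕ) (P R1 : ℝ) (q : Piece N), q.ok Cl P →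
    ∃ p' : Fin N → E, (∀ v, ‖p' v‖ ≤ P) ∧
      (Piece.mk q.D p' q.lab q.T).ok Cl P ∧
      (∀ x y, (Piece.mk q.D p' q.lab q.T).d x y = q.d x y) ∧
      (Piece.mk q.D p' q.lab q.T).L = q.L ∧
      (Piece.mk q.D p' q.lab q.T).Phi R1 = q.Phi R1 ∧
      q.D.I (fun v => p' v - p' q.root) = q.D.I (fun v => q.p v - q.p q.root) ∧
      q.D.Q p' = q.D.Q q.p

/-- [E5] Admissibility of a piece is a closed condition on the data; the box is compact.
PROOF. `ok` is a conjunction of: `D.ok`, `labs`, `lvs` (independent of `y`, using `(A.real z).leaves = A.leaves`, E0); `WPos`: finitely many inequalities `0 ≤ ar ..` between continuous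
functions (induction on `PT`: `IsClosed {p | P.WPos p a b}` for all `a b`); `nods`: `∀ i ∈ names, In D.K (y.2 i)` (E0) and `{x | In K x}` is closed (`Sup x f` is closed, finite
union over `f ∈ K`: `Set.Finite.isClosed_biUnion` or `isClosed_biUnion_finset`); `diam`: closed. `Box` is a product of closed balls of the proper space `E` and of intervals: it equals
`(Set.univ.pi fun _ => Metric.closedBall 0 P) ×ˢ (Set.univ.pi fun _ => Set.univ.pi fun _ => Set.Icc 0 1)`. -/
def S_E5 : Prop :=
  ∀ (N k : ℕ) (Cl : Finset ℕ) (P : ℝ),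
    (∀ t : SP N k, IsClosed {y : Dat N k | (t.real y).ok Cl P}) ∧ IsCompact (Box N k P)

/-- [E6] The condition `MSTge` is closed.
PROOF. Let `l` be a list of weighted pairs, all of them available chords (`Ch`) of `mk t y₀` and joining all classes. For every `ε > 0` the list `l'` with all weights increased by
`ε` consists of available chords of `mk t (y n)` for large `n`: a chord `(j; v, w)` of `l` satisfies
`d_{y n}(vx v, vx w) ≤ d_{y₀}(vx v, vx w) + ε` for large `n` by A7 (or A5; `Cn` by B5, `In` of the vertices by B4 and A1; for the finitely many `j, v, w` at once). `l'` still joins all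
classes. So `1 ≤ sum of l' = sum of l + l.length * ε`; let `ε → 0`. -/
def S_E6 : Prop :=
  ∀ (N k m : ℕ) (Cl : Finset ℕ) (P : ℝ) (t : Fin m → SP N k) (y : ℕ → Fin m → Dat N k)
    (y₀ : Fin m → Dat N k), Tendsto y atTop (𝓝 y₀) →
    (∀ n j, ((t j).real (y n j)).ok Cl P) → (∀ j, ((t j).real (y₀ j)).ok Cl P) →
    (∀ n, MSTge Cl (mk t (y n)) 1) → MSTge Cl (mk t y₀) 1

/-- [E7] The length of the network of a piece is continuous in the data.
PROOF. For a symbolic network `A` whose nodes and leaves are points of `K = t.D.K` (for all `y` in the set): `(A.real y.2).len d` is a finite sum of terms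
`dK K (ce y.1) (point) (point)` where the points are `vx v` (`v` a leaf, in `t.D.vl`, so `In K (vx v)` by B4, A1) or `y.2 i` (`i` a name, `In K (y.2 i)` by `ok.nods`). Each term is
continuous on the set by A7 with `l = 𝓝[s] y₀` (`Cn` by B5). Induction on `A`. Then `tlen`. -/
def S_E7 : Prop :=
  ∀ (N k : ℕ) (Cl : Finset ℕ) (P : ℝ) (t : SP N k),
    ContinuousOn (fun y : Dat N k => (t.real y).L) {y | (t.real y).ok Cl P}

/-- [E8] The other functionals are continuous in the data.
PROOF. `phi R1` is continuous (`Continuous.if_le`; at `r = R1` both branches are `R1 ^ 2`). The root does not depend on `y` (E0). `(t.real y).Phi R1` is a sum over the fixed lists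
`t.D.vl` and `names` (E0: `nodes = names.map y.2`) of continuous functions; `pos y.1 (y.2 i) = ∑ v, y.2 i v • y.1 v` is continuous. `I` and `Q` by induction on
`PT` (for all `a b`), `ar` is a polynomial in the coordinates. Sums over fixed lists: `continuous_list_sum` or induction on the list. -/
def S_E8 : Prop :=
  ∀ (N k : ℕ) (R1 : ℝ) (t : SP N k),
    Continuous (fun y : Dat N k => (t.real y).Phi R1) ∧
    Continuous (fun y : Dat N k => t.D.I (fun v => y.1 v - y.1 (t.real y).root)) ∧
    Continuous (fun y : Dat N k => t.D.Q y.1)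

/-- [E9] Replacing all pieces of a configuration by pieces with the same combinatorics and the same intrinsic distances does not change anything.
PROOF. `q'` has the same `D`, `lab`, `T` and the same `d` as `q`. `ok` is given. `HJ` depends only on `lv` and `lab`: `Hst S a b ↔ Hst S' a b` (use
`List.Forall₂` to find the corresponding piece), `cnt`: the same list of numbers. `Ch S a b r ↔ Ch S' a b r`, so `MSTge` is the same. `Lc`, `mu`, `Phi`, `Ic`, `Qc`: the same
lists of numbers (`List.Forall₂` induction). -/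
def S_E9 : Prop :=
  ∀ (N : ℕ) (Cl : Finset ℕ) (P R1 : ℝ) (S S' : Cfg N),
    List.Forall₂ (fun q q' : Piece N => q'.D = q.D ∧ q'.lab = q.lab ∧ q'.T = q.T ∧ q'.ok Cl P ∧
      (∀ x y, q'.d x y = q.d x y) ∧ q'.L = q.L ∧ q'.Phi R1 = q.Phi R1 ∧
      q'.D.I (fun v => q'.p v - q'.p q'.root) = q.D.I (fun v => q.p v - q.p q.root) ∧
      q'.D.Q q'.p = q.D.Q q.p) S S' →
    InD Cl P S → InD Cl P S' ∧ Lc S' = Lc S ∧ mu S' = mu S ∧ Phi R1 S' = Phi R1 S ∧
      Ic S' = Ic S ∧ Qc S' = Qc S

end Pool.Agent.Lib.MP_9f84a9_co
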